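import Pool.Agent.H669Z.Hech.Main

open Pool.Agent.H669Z.Hech Pool.Agent.H50Z.Hur Pool.Agent.Helper292.ForceCH

/-- Q1. (1) Some forcing notion preserves the first uncountable ordinal and forces `Bounded`,
`Scale K` and `Conc`. (2) These three statements imply that the bounding and dominating numbers
are equal and that some set of reals of smaller size is not productively Hurewicz. -/
theorem Pool.Agent.Results.MP_7c0f46_gt.AAHurewicz.result :
    (∃ (P : Type) (_ : Preorder P) (K : Type) (_ : LinearOrder K), Nonempty P ∧ ∀ p : P,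
      p ∈ OmegaOnePreserved P ∧ p ∈ FBounded P ∧ p ∈ FScale P K ∧ p ∈ FConc P) ∧
    ∀ (K : Type) [LinearOrder K], Bounded → Scale K → Conc →
      boundingNumber = dominatingNumber ∧ ∃ X : Set ℝ, Cardinal.mk X < boundingNumber ∧
        ∃ (Y : Type) (_ : TopologicalSpace Y), T35Space Y ∧ IsHurewicz Y ∧ ¬ IsHurewicz (X × Y) :=
  ⟨exists_forcing, ground_hurewicz⟩
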