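import Pool.Agent.H50Z.Mic.Main

namespace Pool.Agent.Results.MP_7c0f46_gt.ASmallNotProductive

open Pool.Agent.H50Z.Hur Pool.Agent.H50Z.Mic

/-- If the bounding number exceeds the first uncountable cardinal and a Sierpinski set exists, then
some set of reals of size below the bounding number is neither productively Hurewicz nor
productively Menger. -/
theorem result (hb : Cardinal.aleph 1 < boundingNumber) (hS : ∃ S : Set ℝ, IsSierpinski S) :
    ∃ X : Set ℝ, Cardinal.mk X < boundingNumber ∧
      ∃ (Y : Type) (_ : TopologicalSpace Y), T35Space Y ∧ IsHurewicz Y ∧ IsMenger Y ∧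
        ¬ IsHurewicz (X × Y) ∧ ¬ IsMenger (X × Y) :=
  main hb hS

end Pool.Agent.Results.MP_7c0f46_gt.ASmallNotProductive
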